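import Pool.Agent.Lib.MP_9f2731_nt.GP.Alm.Spec

/-!
MP_9f2731_nt, GP/Alm, module Bsa: the main step for almost all primes (adapted from helper59's
Asm/Bas).
-/

set_option autoImplicit false

namespace Pool.Agent.Lib.MP_9f2731_nt.GP.Alm

open Finset
open Pool.Agent.Lib.MP_9f2731_nt.GP.Rel
open Pool.Agent.Lib.MP_9f2731_nt.GP.Asm

private theorem Bas_mono {α : Type} [Fintype α] (f g : α → ℝ) (h : ∀ x, f x ≤ g x) :
    av f ≤ av g := by
  unfold av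
  exact div_le_div_of_nonneg_right (sum_le_sum fun x _ => h x) (Nat.cast_nonneg _)

private theorem Bas_nonneg {α : Type} [Fintype α] (f : α → ℝ) (h : ∀ x, 0 ≤ f x) : 0 ≤ av f := by
  unfold av
  exact div_nonneg (sum_nonneg fun x _ => h x) (Nat.cast_nonneg _)

/-- a nondegenerate configuration -/
private theorem Bas_point {G : Type} [AddCommGroup G] [Fintype G] (k : ℕ) (c : ℝ) (hc : 0 < c)
    (f ν : G → ℝ) (P : G → Prop) [DecidablePred P] (h0 : ∀ x, 0 ≤ f x) (h1 : ∀ x, f x ≤ ν x)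
    (hr : c * (Fintype.card G : ℝ) ^ 2 ≤ ∑ x, ∑ d, ∏ j : Fin k, f (x + (j : ℕ) • d))
    (hd : (∑ x, ∑ d, if P d then ∏ j : Fin k, ν (x + (j : ℕ) • d) else 0) ≤
      c / 2 * (Fintype.card G : ℝ) ^ 2) :
    ∃ x d, ¬ P d ∧ ∀ j : Fin k, f (x + (j : ℕ) • d) ≠ 0 := by
  by_contra hcon
  push Not at hcon
  have h2 : ∑ x, ∑ d, ∏ j : Fin k, f (x + (j : ℕ) • d) ≤
      ∑ x, ∑ d, if P d then ∏ j : Fin k, ν (x + (j : ℕ) • d) else 0 := by
    refine sum_le_sum fun x _ => sum_le_sum fun d _ => ?_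
    by_cases hP : P d
    · rw [if_pos hP]
      exact prod_le_prod (fun j _ => h0 _) fun j _ => h1 _
    · rw [if_neg hP]
      obtain ⟨j, hj⟩ := hcon x d hP
      exact (prod_eq_zero (mem_univ j) hj).le
  have h3 : 0 < (Fintype.card G : ℝ) := Nat.cast_pos.2 Fintype.card_pos
  have h4 : 0 < c * (Fintype.card G : ℝ) ^ 2 := by positivity
  have h5 := (hr.trans h2).trans hd
  linarith

open Classical in
/-- selection of good `b` -/
private theorem Bas_select (hS : SelStmt) (X : ℕ) (hX : 1 ≤ X) {ι : Type} (I : Finset ι)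
    (F V D : ℕ → ℝ) (g : ι → ℕ → ℝ) (δ η2 θ t : ℝ) (hδ : 0 < δ) (hη2 : 0 < η2) (ht : 0 < t)
    (hFV : ∀ b, 0 ≤ F b ∧ F b ≤ V b) (h2 : 2 * δ ≤ eb X F) (h3 : eb X (fun b => V b ^ 2) ≤ 2)
    (hg0 : ∀ i ∈ I, ∀ b, 0 ≤ g i b) (hg : ∀ i ∈ I, eb X (g i) ≤ θ)
    (hD0 : ∀ b, 0 ≤ D b) (hD : eb X D ≤ t * (δ ^ 2 / 8))
    (hn : (I.card : ℝ) * θ / η2 ≤ δ ^ 2 / 8) :
    δ ^ 2 / 4 * X ≤
      (((Icc 1 X).filter (fun b => δ ≤ F b ∧ (∀ i ∈ I, g i b ≤ η2) ∧ D b ≤ t)).card : ℝ) := by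
  have hX0 : (0 : ℝ) ≤ X := Nat.cast_nonneg X
  have c1 : δ ^ 2 / 2 * X ≤ (((Icc 1 X).filter (fun b => δ ≤ F b)).card : ℝ) := by
    refine le_trans (hS.1 X F V δ hX hδ hFV h2 h3) (le_of_eq ?_)
    congr 2
  have c2 : ∀ i ∈ I, (((Icc 1 X).filter (fun b => η2 < g i b)).card : ℝ) ≤ X * θ / η2 := by
    intro i hi
    have h := hS.2 X (g i) η2 hX hη2 (hg0 i hi)
    have h' : (X : ℝ) * eb X (g i) / η2 ≤ X * θ / η2 :=
      div_le_div_of_nonneg_right (mul_le_mul_of_nonneg_left (hg i hi) hX0) hη2.le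
    refine le_trans (le_of_eq ?_) (h.trans h')
    congr 2
  have c3 : (((Icc 1 X).filter (fun b => t < D b)).card : ℝ) ≤ X * (δ ^ 2 / 8) := by
    have h := hS.2 X D t hX ht hD0
    have h' : (X : ℝ) * eb X D / t ≤ X * (t * (δ ^ 2 / 8)) / t :=
      div_le_div_of_nonneg_right (mul_le_mul_of_nonneg_left hD hX0) ht.le
    have h'' : (X : ℝ) * (t * (δ ^ 2 / 8)) / t = X * (δ ^ 2 / 8) := by
      field_simp
    rw [h''] at h'
    refine le_trans (le_of_eq ?_) (h.trans h')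
    congr 2
  have hsub : (Icc 1 X).filter (fun b => δ ≤ F b) ⊆
      ((Icc 1 X).filter (fun b => δ ≤ F b ∧ (∀ i ∈ I, g i b ≤ η2) ∧ D b ≤ t) ∪
        I.biUnion fun i => (Icc 1 X).filter (fun b => η2 < g i b)) ∪
        (Icc 1 X).filter (fun b => t < D b) := by
    intro b hb
    rw [mem_filter] at hb
    by_cases h4 : D b ≤ t
    · by_cases h5 : ∀ i ∈ I, g i b ≤ η2
      · exact mem_union_left _ (mem_union_left _ (mem_filter.2 ⟨hb.1, hb.2, h5, h4⟩))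
      · push Not at h5
        obtain ⟨i, hi, hgi⟩ := h5
        exact mem_union_left _ (mem_union_right _
          (mem_biUnion.2 ⟨i, hi, mem_filter.2 ⟨hb.1, hgi⟩⟩))
    · exact mem_union_right _ (mem_filter.2 ⟨hb.1, not_le.1 h4⟩)
  have h6 := (card_le_card hsub).trans ((card_union_le _ _).trans
    (Nat.add_le_add_right (card_union_le _ _) _))
  have h7 : (((Icc 1 X).filter (fun b => δ ≤ F b)).card : ℝ) ≤
      (((Icc 1 X).filter (fun b => δ ≤ F b ∧ (∀ i ∈ I, g i b ≤ η2) ∧ D b ≤ t)).card : ℝ) +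
        ((I.biUnion fun i => (Icc 1 X).filter (fun b => η2 < g i b)).card : ℝ) +
        (((Icc 1 X).filter (fun b => t < D b)).card : ℝ) := by exact_mod_cast h6
  have h8 : ((I.biUnion fun i => (Icc 1 X).filter (fun b => η2 < g i b)).card : ℝ) ≤
      X * (δ ^ 2 / 8) := by
    have h9 : ((I.biUnion fun i => (Icc 1 X).filter (fun b => η2 < g i b)).card : ℝ) ≤
        ∑ i ∈ I, (((Icc 1 X).filter (fun b => η2 < g i b)).card : ℝ) := by
      exact_mod_cast card_biUnion_le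
    have h10 : ∑ i ∈ I, (((Icc 1 X).filter (fun b => η2 < g i b)).card : ℝ) ≤
        ∑ _i ∈ I, X * θ / η2 := sum_le_sum c2
    rw [sum_const, nsmul_eq_mul] at h10
    have h11 : (I.card : ℝ) * (X * θ / η2) = X * (I.card * θ / η2) := by ring
    rw [h11] at h10
    exact (h9.trans h10).trans (mul_le_mul_of_nonneg_left hn hX0)
  linarith

private theorem Bas_large (ε0 ε K : ℝ) (n0 : ℕ) (h0 : 0 < ε0) (h : 2 * ε0 < ε) :
    ∃ X0 : ℝ, ∀ X : ℕ, X0 ≤ X → 1 ≤ X ∧ n0 ≤ ⌊(Real.log X) ^ ε0⌋₊ ∧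
      1 ≤ ⌊(Real.log X) ^ ε0⌋₊ ∧ 0 ≤ (Real.log X) ^ ε0 ∧
      K * ((Real.log X) ^ ε0) ^ 2 ≤ (Real.log X) ^ ε := by
  have hlog : Filter.Tendsto (fun X : ℕ => Real.log (X : ℝ)) Filter.atTop Filter.atTop :=
    Real.tendsto_log_atTop.comp (tendsto_natCast_atTop_atTop (R := ℝ))
  have t1 := ((tendsto_rpow_atTop h0).comp hlog).eventually
    (Filter.eventually_ge_atTop (max (n0 : ℝ) 1))
  have t2 := ((tendsto_rpow_atTop (show 0 < ε - 2 * ε0 by linarith)).comp hlog).eventually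
    (Filter.eventually_ge_atTop K)
  have t3 := hlog.eventually (Filter.eventually_ge_atTop (1 : ℝ))
  have t := (t1.and (t2.and t3)).and (Filter.eventually_ge_atTop 1)
  rw [Filter.eventually_atTop] at t
  obtain ⟨N0, hN0⟩ := t
  refine ⟨N0, fun X hX => ?_⟩
  obtain ⟨⟨c1, c2, c3⟩, c4⟩ := hN0 X (by exact_mod_cast hX)
  simp only [Function.comp_apply] at c1 c2
  have hL : 0 < Real.log (X : ℝ) := by linarith
  refine ⟨c4, Nat.le_floor ((le_max_left _ _).trans c1), Nat.le_floor ?_,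
    Real.rpow_nonneg hL.le _, ?_⟩
  · rw [Nat.cast_one]
    exact (le_max_right _ _).trans c1
  · have e1 : ((Real.log (X : ℝ)) ^ ε0) ^ 2 = (Real.log X) ^ (2 * ε0) := by
      rw [← Real.rpow_natCast, ← Real.rpow_mul hL.le]
      congr 1
      push_cast
      ring
    have e2 : (Real.log (X : ℝ)) ^ ε = (Real.log X) ^ (ε - 2 * ε0) * (Real.log X) ^ (2 * ε0) := by
      rw [← Real.rpow_add hL]
      congr 1
      ring
    rw [e1, e2]
    exact mul_le_mul_of_nonneg_right c2 (Real.rpow_nonneg hL.le _)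

private theorem Bas_inj {T M : ℕ} (hM : M.Prime) (n : ℕ) (h1 : 1 ≤ n) (h2 : n < M) :
    Function.Injective (fun x : Fin (T + 1) → ZMod M => n • x) := by
  have : Fact M.Prime := ⟨hM⟩
  intro x y hxy
  funext t
  have h3 : n • x t = n • y t := congrFun hxy t
  rw [nsmul_eq_mul, nsmul_eq_mul] at h3
  have h4 : (n : ZMod M) ≠ 0 := by
    intro h5
    rw [ZMod.natCast_eq_zero_iff] at h5
    exact absurd (Nat.le_of_dvd (by omega) h5) (by omega)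
  exact mul_left_cancel₀ h4 h3

open Classical in
private theorem Bas_fb {l w : ℕ} {κ : ℝ} {T M : ℕ} {q : Fin T → ℕ} {N X b : ℕ}
    {x : Fin (T + 1) → ZMod M} (h : fb l w κ q N X b x ≠ 0) :
    Bx T M N x ∧ (Wp w * b * mlt q x + 1).Prime := by
  by_contra hcon
  apply h
  unfold fb
  rw [if_neg]
  exact fun h' => hcon ⟨h'.1, h'.2.2⟩

/-- a product of powers of the q j has its prime factors among the q j -/
private theorem bsa_gen {T : ℕ} (q : Fin T → ℕ) (hq : ∀ j, (q j).Prime) (e : Fin T → ℕ) :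
    Gen q (∏ j, q j ^ e j) := by
  refine ⟨Nat.one_le_iff_ne_zero.mpr (prod_ne_zero_iff.mpr fun j _ =>
    pow_ne_zero _ (hq j).ne_zero), fun p hp hd => ?_⟩
  obtain ⟨j, _, hj⟩ := (Prime.dvd_finset_prod_iff hp.prime _).mp hd
  exact ⟨j, (Nat.prime_dvd_prime_iff_eq hp (hq j)).mp (hp.dvd_of_dvd_pow hj)⟩

theorem pBsa (h1 : RelStmt) (h2 : GenStmt) (h3 : Lf2Stmt) (h4 : SecStmt) (h5 : DegStmt)
    (h6 : DnaStmt) (h7 : MajStmt) (h8 : SelStmt) (h9 : PtsStmt) (hMlt : MltStmt) : BsaStmt := by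
  classical
  intro k ε hk hε
  have hJk : k ≤ 2 * (k * 2 ^ k) := by
    have : 1 ≤ 2 ^ k := Nat.one_le_two_pow
    nlinarith
  obtain ⟨l, κ, C, C2, hG⟩ := h2 (2 * (k * 2 ^ k)) (by omega)
  have hl : 1 ≤ l := hG.1
  have hκ0 : 0 < κ := hG.2.1
  have hκ1 : κ < 1 := hG.2.2.1
  have hC2 : 0 < C2 := hG.2.2.2.2.1
  obtain ⟨ε1, hε1, hDen⟩ := h6
  obtain ⟨ε0, hε0, hε0ε, hε01⟩ : ∃ ε0 : ℝ, 0 < ε0 ∧ ε0 ≤ ε / 4 ∧ ε0 ≤ ε1 :=
    ⟨min (ε / 4) ε1, by positivity, min_le_left _ _, min_le_right _ _⟩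
  obtain ⟨T, hT1, hTe⟩ : ∃ T : ℕ, 1 ≤ T ∧ C2 + 2 ≤ ε0 * (T + 1) := by
    refine ⟨⌈(C2 + 2) / ε0⌉₊, Nat.one_le_ceil_iff.2 (by positivity), ?_⟩
    have h := Nat.le_ceil ((C2 + 2) / ε0)
    rw [div_le_iff₀ hε0] at h
    linarith
  refine ⟨T, fun q hq hqi ρ hρ => ?_⟩
  have hPq : Pq q := ⟨hT1, hq, hqi⟩
  obtain ⟨δ, hδ, hDen⟩ := hDen l κ hl hκ0 hκ1 ε0 hε0 hε01 T q hPq ρ hρ
  obtain ⟨c, η, n0, hc, hη, hRel⟩ := h1 k δ hk hδ
  obtain ⟨SS, hSS⟩ : ∃ SS : Finset (Finset (Fin k × (Fin k → Bool))),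
      ∀ S, S ∈ SS ↔ ∀ p ∈ S, p.2 p.1 = false :=
    ⟨univ.filter (fun S => ∀ p ∈ S, p.2 p.1 = false), fun S => by
      rw [mem_filter]
      exact ⟨fun h => h.2, fun h => ⟨mem_univ _, h⟩⟩⟩
  obtain ⟨θ, hθ, hθ1, hθ2⟩ : ∃ θ : ℝ, 0 < θ ∧ (SS.card : ℝ) * θ / η ^ 2 ≤ δ ^ 2 / 8 ∧
      θ ≤ c / 2 * (δ ^ 2 / 8) := by
    refine ⟨min (η ^ 2 * δ ^ 2 / (8 * (SS.card + 1))) (c / 2 * (δ ^ 2 / 8)), by positivity, ?_,
      min_le_right _ _⟩
    rw [div_le_iff₀ (by positivity)]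
    have hs : (0 : ℝ) ≤ SS.card := Nat.cast_nonneg _
    have hm := min_le_left (η ^ 2 * δ ^ 2 / (8 * ((SS.card : ℝ) + 1))) (c / 2 * (δ ^ 2 / 8))
    refine (mul_le_mul_of_nonneg_left hm hs).trans ?_
    rw [← mul_div_assoc, div_le_iff₀ (by positivity)]
    have hp : 0 ≤ η ^ 2 * δ ^ 2 := by positivity
    nlinarith
  obtain ⟨w1, hw1⟩ := h3 k _ l κ C C2 hk le_rfl hG T q hPq ε0 hε0 hTe θ hθ
  obtain ⟨w2, hw2⟩ := h4 _ l κ C C2 (by omega) hG T q hPq ε0 hε0 hTe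
  obtain ⟨w3, hw3⟩ := h5 k _ l κ C C2 (by omega) hJk hG T q hPq ε0 hε0 hTe θ hθ
  have hqs : ∀ j, q j ≤ ∑ j, q j := fun j => single_le_sum (fun i _ => Nat.zero_le _) (mem_univ j)
  obtain ⟨w, hwa, hwb, hwc, hwd, hwe⟩ : ∃ w : ℕ, 2 ≤ w ∧ (∀ j, q j ≤ w) ∧ w1 ≤ w ∧ w2 ≤ w ∧
      w3 ≤ w := by
    refine ⟨2 + (∑ j, q j) + w1 + w2 + w3, by omega, fun j => ?_, by omega, by omega, by omega⟩
    have := hqs j
    omega
  obtain ⟨X1, hX1⟩ := hDen w hwa hwb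
  obtain ⟨X2, hX2⟩ := hw1 w hwc
  obtain ⟨X3, hX3⟩ := hw2 w hwd
  obtain ⟨X4, hX4⟩ := hw3 w hwe
  obtain ⟨X5, hX5⟩ := Bas_large ε0 ε (T * 16 * Real.log ((∑ j, q j : ℕ) : ℝ)) n0 hε0 (by linarith)
  refine ⟨Wp w, primorial_pos w,
    max X1 (max X2 (max X3 (max X4 (max X5 1)))), fun X hX => ?_⟩
  rw [max_le_iff, max_le_iff, max_le_iff, max_le_iff, max_le_iff] at hX
  obtain ⟨a1, a2, a3, a4, a5, a6⟩ := hX
  obtain ⟨hXp, hNn0, hN1, hL0, hLog⟩ := hX5 X a5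
  obtain ⟨N, hN⟩ : ∃ N : ℕ, N = ⌊(Real.log X) ^ ε0⌋₊ := ⟨_, rfl⟩
  rw [← hN] at hNn0 hN1
  obtain ⟨M, hMp, hM1, hM2⟩ := Nat.exists_prime_lt_and_le_two_mul (2 * N) (by omega)
  have : NeZero M := ⟨hMp.ne_zero⟩
  have hScl : Scl ε0 X N M := ⟨hN, hM1, by omega, hMp⟩
  have hcard : (Fintype.card (Fin (T + 1) → ZMod M) : ℝ) = (M : ℝ) ^ (T + 1) := by
    rw [Fintype.card_fun, ZMod.card, Fintype.card_fin]
    push_cast
    rfl
  have hM0 : (0 : ℝ) < M := Nat.cast_pos.2 hMp.pos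
  have hcardpos : (0 : ℝ) < (M : ℝ) ^ (T + 1) := pow_pos hM0 _
  have hmaj := fun b => h7 T q hPq l w N M X b κ hl hκ0 hXp
  have hnub0 : ∀ b (x : Fin (T + 1) → ZMod M), 0 ≤ nub l w κ q N X b x :=
    fun b x => (hmaj b x).1.trans (hmaj b x).2
  have hbound : (T : ℝ) * (M : ℝ) ^ 2 * Real.log ((∑ j, q j : ℕ) : ℝ) ≤ (Real.log X) ^ ε := by
    refine le_trans ?_ hLog
    have h10 : (M : ℝ) ≤ 4 * (Real.log X) ^ ε0 := by
      have h11 : (M : ℝ) ≤ 4 * N := by exact_mod_cast (by omega : M ≤ 4 * N)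
      have h12 : (N : ℝ) ≤ (Real.log X) ^ ε0 := by
        rw [hN]
        exact Nat.floor_le hL0
      linarith
    have h13 : (M : ℝ) ^ 2 ≤ 16 * ((Real.log X) ^ ε0) ^ 2 := by
      have := pow_le_pow_left₀ hM0.le h10 2
      calc (M : ℝ) ^ 2 ≤ (4 * (Real.log X) ^ ε0) ^ 2 := this
        _ = 16 * ((Real.log X) ^ ε0) ^ 2 := by ring
    have h14 : 0 ≤ Real.log ((∑ j, q j : ℕ) : ℝ) := Real.log_natCast_nonneg _
    calc (T : ℝ) * (M : ℝ) ^ 2 * Real.log ((∑ j, q j : ℕ) : ℝ)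
        ≤ (T : ℝ) * (16 * ((Real.log X) ^ ε0) ^ 2) * Real.log ((∑ j, q j : ℕ) : ℝ) :=
          mul_le_mul_of_nonneg_right (mul_le_mul_of_nonneg_left h13 (Nat.cast_nonneg T)) h14
      _ = (T : ℝ) * 16 * Real.log ((∑ j, q j : ℕ) : ℝ) * ((Real.log X) ^ ε0) ^ 2 := by ring
  have hexp : ∀ n : ℕ, 1 ≤ n →
      Real.log n ≤ T * (M : ℝ) ^ 2 * Real.log ((∑ j, q j : ℕ) : ℝ) →
      (n : ℝ) ≤ Real.exp ((Real.log X) ^ ε) := by
    intro n hn h10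
    have hn0 : (0 : ℝ) < n := Nat.cast_pos.2 (by omega)
    rw [← Real.log_le_iff_le_exp hn0]
    exact h10.trans hbound
  obtain ⟨hcnt, hdens⟩ := hX1 X a1 N M hScl
  -- every multiplier of the box is admissible for s
  by_contra hcon
  push Not at hcon
  obtain ⟨P, hP⟩ : ∃ P : ℕ → Prop, ∀ n, P n ↔ ¬ Sta k ε q X n := ⟨_, fun n => Iff.rfl⟩
  have hbad : ∀ x : Fin (T + 1) → ZMod M, Bx T M N x →
      ρ * (((Icc 1 X).filter (fun b => (Wp w * b * mlt q x + 1).Prime)).card : ℝ) ≤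
        (((Icc 1 X).filter (fun b => (Wp w * b * mlt q x + 1).Prime ∧
          P (Wp w * b * mlt q x))).card : ℝ) := by
    intro x hx
    have hg : Gen q (mlt q x) := bsa_gen q hq _
    have hs := (hMlt T q hPq M).2.2 (∑ j, q j) hqs x
    refine (hcon (mlt q x) hg (hexp _ hg.1 hs) (hcnt x)).le.trans (le_of_eq ?_)
    congr 2
    exact Finset.filter_congr fun b _ => by rw [hP]
  have hden := hdens P hbad
  set f : ℕ → (Fin (T + 1) → ZMod M) → ℝ := fun b x =>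
    if P (Wp w * b * mlt q x) then fb l w κ q N X b x else 0 with hf
  have hf0 : ∀ b x, 0 ≤ f b x ∧ f b x ≤ fb l w κ q N X b x := by
    intro b x
    simp only [hf]
    split_ifs
    · exact ⟨(hmaj b x).1, le_rfl⟩
    · exact ⟨le_rfl, (hmaj b x).1⟩
  have hfmaj : ∀ b x, 0 ≤ f b x ∧ f b x ≤ nub l w κ q N X b x := fun b x =>
    ⟨(hf0 b x).1, (hf0 b x).2.trans (hmaj b x).2⟩
  have hsel := Bas_select h8 X hXp SS
    (fun b => av (fun x : Fin (T + 1) → ZMod M => f b x))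
    (fun b => av (fun x : Fin (T + 1) → ZMod M => nub l w κ q N X b x))
    (fun b => ∑ x : Fin (T + 1) → ZMod M, ∑ d : Fin (T + 1) → ZMod M,
        if d 0 = 0 then ∏ j : Fin k, nub l w κ q N X b (x + (j : ℕ) • d) else 0)
    (fun S b => (lfm k S (fun x : Fin (T + 1) → ZMod M => nub l w κ q N X b x) - 1) ^ 2)
    δ (η ^ 2) θ (c / 2 * ((M : ℝ) ^ (T + 1)) ^ 2) hδ (by positivity) (by positivity)
    (fun b => ⟨Bas_nonneg _ fun x => (hfmaj b x).1, Bas_mono _ _ fun x => (hfmaj b x).2⟩)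
    hden (hX3 X a3 N M hScl) (fun S _ b => sq_nonneg _)
    (fun S hS => hX2 X a2 N M hScl S ((hSS S).1 hS))
    (fun b => sum_nonneg fun x _ => sum_nonneg fun d _ => by
      split_ifs
      · exact prod_nonneg fun j _ => hnub0 b _
      · exact le_rfl)
    ((hX4 X a4 N M hScl).trans (by
      have h10 : 0 ≤ ((M : ℝ) ^ (T + 1)) ^ 2 := by positivity
      calc θ * ((M : ℝ) ^ (T + 1)) ^ 2 ≤ c / 2 * (δ ^ 2 / 8) * ((M : ℝ) ^ (T + 1)) ^ 2 :=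
            mul_le_mul_of_nonneg_right hθ2 h10
        _ = c / 2 * ((M : ℝ) ^ (T + 1)) ^ 2 * (δ ^ 2 / 8) := by ring)) hθ1
  have hXpos : (0 : ℝ) < X := Nat.cast_pos.2 (by omega)
  have hpos : (0 : ℝ) < δ ^ 2 / 4 * X := by positivity
  have hpos' := hpos.trans_le hsel
  rw [Nat.cast_pos, card_pos] at hpos'
  obtain ⟨b, hb⟩ := hpos'
  rw [mem_filter, mem_Icc] at hb
  obtain ⟨⟨hb1, hb2⟩, hF, hlf, hdeg⟩ := hb
  have hLFC : LFC k η (fun x : Fin (T + 1) → ZMod M => nub l w κ q N X b x) := by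
    intro S hS
    exact abs_le_of_sq_le_sq (hlf S ((hSS S).2 hS)) hη.le
  have hsum : δ * (Fintype.card (Fin (T + 1) → ZMod M) : ℝ) ≤
      ∑ x : Fin (T + 1) → ZMod M, f b x := by
    have h10 : δ ≤ (∑ x : Fin (T + 1) → ZMod M, f b x) /
      (Fintype.card (Fin (T + 1) → ZMod M) : ℝ) := hF
    rwa [le_div_iff₀ (by rw [hcard]; exact hcardpos)] at h10
  have hrel := hRel (Fin (T + 1) → ZMod M)
    (fun n hn1 hn2 => Bas_inj hMp n hn1 (by omega)) _ _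
    (fun x => (hfmaj b x).1) (fun x => (hfmaj b x).2) hLFC hsum
  rw [← hcard] at hdeg
  obtain ⟨x, d, hd, hfx⟩ := Bas_point k c hc _ _ (fun d : Fin (T + 1) → ZMod M => d 0 = 0)
    (fun x => (hfmaj b x).1) (fun x => (hfmaj b x).2) hrel hdeg
  have hall : ∀ j : ℕ, j < k → Bx T M N (x + j • d) ∧
      (Wp w * b * mlt q (x + j • d) + 1).Prime ∧
      P (Wp w * b * mlt q (x + j • d)) := by
    intro j hj
    have h10 : f b (x + j • d) ≠ 0 := hfx ⟨j, hj⟩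
    simp only [hf] at h10
    split_ifs at h10 with h11
    · exact ⟨(Bas_fb h10).1, (Bas_fb h10).2, h11⟩
    · exact absurd rfl h10
  obtain ⟨s, r, hs, hr, hr2, hlg, hpt⟩ := h9 T q hPq N M k hM1 (by omega) x d hd
    fun j hj => (hall j hj).1
  obtain ⟨g1, g2⟩ := hlg (∑ j, q j) hqs
  obtain ⟨j0, hj0, hjm0⟩ := hpt 0 (by omega)
  have h20 := (hP _).1 (hall j0 hj0).2.2
  apply h20
  refine ⟨r, hr, hr2, hexp r hr.1 g2, fun i hi => ?_⟩
  obtain ⟨j, hj, hjm⟩ := hpt i hi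
  have h10 := (hall j hj).2.1
  rw [hjm] at h10
  rw [hjm0, pow_zero, mul_one, mul_assoc]
  exact h10

end Pool.Agent.Lib.MP_9f2731_nt.GP.Alm
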