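import Pool.Agent.Lib.MP_9f2731_nt.GP.Alm.Spec

/-!
MP_9f2731_nt, GP/Alm/Dna: the density of a set of primes on the lattice (adapted from helper77's
Asm/Den).
-/

namespace Pool.Agent.Lib.MP_9f2731_nt.GP.Alm

open Finset Pool.Agent.Lib.MP_9f2731_nt.GP.Rel Pool.Agent.Lib.MP_9f2731_nt.GP.Asm

/-- the height of fb -/
private noncomputable def denV (l w : ℕ) (κ : ℝ) (X : ℕ) : ℝ :=
  ((Wp w).totient / (Wp w) : ℝ) * Real.log ((X : ℝ) ^ κ) * ((2 * (l : ℝ) - 1) / (l : ℝ) ^ 2)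

private theorem den_fb_pos {l w : ℕ} {κ : ℝ} {T M : ℕ} {q : Fin T → ℕ} {N X b : ℕ}
    {x : Fin (T + 1) → ZMod M} (h : Bx T M N x ∧ (X : ℝ) ^ κ < (b : ℝ) ∧
      (Wp w * b * mlt q x + 1).Prime) : fb l w κ q N X b x = denV l w κ X := by
  unfold fb
  rw [if_pos h]
  rfl

private theorem den_fb_nonneg {l w : ℕ} {κ : ℝ} {T M : ℕ} {q : Fin T → ℕ} {N X b : ℕ}
    {x : Fin (T + 1) → ZMod M} (hV : 0 ≤ denV l w κ X) : 0 ≤ fb l w κ q N X b x := by
  unfold fb
  split_ifs
  · exact hV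
  · exact le_rfl

private theorem den_small (X : ℕ) {κ : ℝ} :
    (((Icc 1 X).filter (fun b : ℕ => ¬ (X : ℝ) ^ κ < (b : ℝ))).card : ℝ) ≤ (X : ℝ) ^ κ := by
  have h0 : (0 : ℝ) ≤ (X : ℝ) ^ κ := Real.rpow_nonneg (Nat.cast_nonneg X) κ
  have h1 : (Icc 1 X).filter (fun b : ℕ => ¬ (X : ℝ) ^ κ < (b : ℝ)) ⊆
      Icc 1 ⌊(X : ℝ) ^ κ⌋₊ := by
    intro b hb
    obtain ⟨h2, h3⟩ := Finset.mem_filter.mp hb
    rw [Finset.mem_Icc] at h2 ⊢
    exact ⟨h2.1, Nat.le_floor (not_lt.mp h3)⟩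
  have h2 := Finset.card_le_card h1
  rw [Nat.card_Icc, Nat.add_sub_cancel] at h2
  calc (((Icc 1 X).filter (fun b : ℕ => ¬ (X : ℝ) ^ κ < (b : ℝ))).card : ℝ)
      ≤ (⌊(X : ℝ) ^ κ⌋₊ : ℝ) := by exact_mod_cast h2
    _ ≤ (X : ℝ) ^ κ := Nat.floor_le h0

/-- the number of points of the box -/
private theorem den_box {T M N : ℕ} [NeZero M] (hNM : N ≤ M) :
    N ^ (T + 1) ≤ (univ.filter (fun x : Fin (T + 1) → ZMod M => Bx T M N x)).card := by
  have h1 : N ≤ (univ.filter (fun y : ZMod M => y.val < N)).card := by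
    have h2 : (range N).card ≤ (univ.filter (fun y : ZMod M => y.val < N)).card := by
      refine Finset.card_le_card_of_injOn (fun i : ℕ => (i : ZMod M)) ?_ ?_
      · intro i hi
        have hi' : i < N := Finset.mem_range.mp (Finset.mem_coe.mp hi)
        simp only [Finset.coe_filter, Finset.mem_univ, true_and, Set.mem_setOf_eq]
        rw [ZMod.val_natCast_of_lt (lt_of_lt_of_le hi' hNM)]
        exact hi'
      · intro i hi j hj hij
        have hi' : i < N := Finset.mem_range.mp (Finset.mem_coe.mp hi)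
        have hj' : j < N := Finset.mem_range.mp (Finset.mem_coe.mp hj)
        have h3 := congrArg ZMod.val hij
        simp only at h3
        rwa [ZMod.val_natCast_of_lt (lt_of_lt_of_le hi' hNM),
          ZMod.val_natCast_of_lt (lt_of_lt_of_le hj' hNM)] at h3
    rwa [Finset.card_range] at h2
  have h2 : (univ.filter (fun x : Fin (T + 1) → ZMod M => Bx T M N x)) =
      Fintype.piFinset (fun _ : Fin (T + 1) => univ.filter (fun y : ZMod M => y.val < N)) := by
    ext x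
    simp only [Finset.mem_filter, Finset.mem_univ, true_and, Fintype.mem_piFinset, Bx]
  rw [h2, Fintype.card_piFinset, Finset.prod_const, Finset.card_univ, Fintype.card_fin]
  exact Nat.pow_le_pow_left h1 _

open Classical in
private theorem dna_nonneg {l w : ℕ} {κ : ℝ} {T M : ℕ} {q : Fin T → ℕ} {N X b : ℕ}
    {x : Fin (T + 1) → ZMod M} {p : Prop} (hV : 0 ≤ denV l w κ X) :
    0 ≤ (if p then fb l w κ q N X b x else 0) := by
  split_ifs
  · exact den_fb_nonneg hV
  · exact le_rfl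

theorem pDna (hA : ApStmt) (hM : MltStmt) : DnaStmt := by
  classical
  obtain ⟨ε1, hε1, hA⟩ := hA
  refine ⟨ε1 / 4, by positivity, ?_⟩
  intro l κ hl hκ hκ1 ε0 hε0 hε01 T q hq δ hδ
  have hl1 : (1 : ℝ) ≤ (l : ℝ) := by exact_mod_cast hl
  have hl2 : (0 : ℝ) < 2 * (l : ℝ) - 1 := by linarith
  have hl3 : (0 : ℝ) < (l : ℝ) ^ 2 := by positivity
  refine ⟨δ * (κ * (2 * (l : ℝ) - 1)) / (16 * (l : ℝ) ^ 2) / 4 ^ (T + 1), by positivity, ?_⟩
  intro w hw hqw
  obtain ⟨Xa, hXa⟩ := hA w hw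
  have ev1 : ∀ᶠ x : ℝ in Filter.atTop, 16 * (T : ℝ) * Real.log w ≤
      (Real.log x) ^ (ε1 - 2 * ε0) :=
    ((tendsto_rpow_atTop (by linarith)).comp Real.tendsto_log_atTop).eventually_ge_atTop _
  have ev2 : ∀ᶠ x : ℝ in Filter.atTop, Real.log x ≤ δ / 8 * x ^ (1 - κ) := by
    have h1 := (isLittleO_log_rpow_atTop (sub_pos.mpr hκ1)).bound
      (show (0 : ℝ) < δ / 8 by positivity)
    filter_upwards [h1, Filter.eventually_ge_atTop 1] with x hx hx1
    have h2 : 0 ≤ x ^ (1 - κ) := Real.rpow_nonneg (by linarith) _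
    rw [Real.norm_of_nonneg h2, Real.norm_eq_abs] at hx
    exact (le_abs_self _).trans hx
  have ev3 : ∀ᶠ x : ℝ in Filter.atTop, 1 ≤ Real.log x :=
    Real.tendsto_log_atTop.eventually_ge_atTop 1
  obtain ⟨X0, hX0⟩ := Filter.eventually_atTop.mp (ev1.and (ev2.and (ev3.and
    (Filter.eventually_ge_atTop (max Xa 1)))))
  refine ⟨X0, fun X hX N M _ hS => ?_⟩
  obtain ⟨e1, e2, e3, e4⟩ := hX0 (X : ℝ) hX
  obtain ⟨hN, hNM, hM4, hMp⟩ := hS
  have hXa' : Xa ≤ (X : ℝ) := (le_max_left _ _).trans e4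
  have hX1 : (1 : ℝ) ≤ (X : ℝ) := (le_max_right _ _).trans e4
  have hXpos : (0 : ℝ) < (X : ℝ) := by linarith
  have hLpos : (0 : ℝ) < Real.log X := by linarith
  have hN1 : 1 ≤ N := by omega
  have hN1' : (1 : ℝ) ≤ (N : ℝ) := by exact_mod_cast hN1
  have hMpos : (0 : ℝ) < (M : ℝ) := by
    have : 0 < M := by omega
    exact_mod_cast this
  have hM4' : (M : ℝ) ≤ 4 * (N : ℝ) := by exact_mod_cast hM4
  have hNL : (N : ℝ) ≤ (Real.log X) ^ ε0 := by
    rw [hN]
    exact Nat.floor_le (Real.rpow_nonneg hLpos.le _)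
  have hlogw : 0 ≤ Real.log w := Real.log_natCast_nonneg w
  -- the lattice multipliers are small
  have hm : ∀ x : Fin (T + 1) → ZMod M, Real.log (mlt q x) ≤ (Real.log X) ^ ε1 := by
    intro x
    have h1 := (hM T q hq M).2.2 w hqw x
    refine h1.trans ?_
    have h2 : (M : ℝ) ^ 2 ≤ 16 * (Real.log X) ^ (2 * ε0) := by
      have h3 : (M : ℝ) ≤ 4 * (Real.log X) ^ ε0 := by linarith
      have h4 : (Real.log X) ^ (2 * ε0) = ((Real.log X) ^ ε0) ^ 2 := by
        rw [two_mul, Real.rpow_add hLpos, sq]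
      rw [h4]
      nlinarith [Real.rpow_nonneg hLpos.le ε0]
    calc (T : ℝ) * (M : ℝ) ^ 2 * Real.log w
        ≤ (T : ℝ) * (16 * (Real.log X) ^ (2 * ε0)) * Real.log w := by
          gcongr
      _ = (16 * (T : ℝ) * Real.log w) * (Real.log X) ^ (2 * ε0) := by ring
      _ ≤ (Real.log X) ^ (ε1 - 2 * ε0) * (Real.log X) ^ (2 * ε0) :=
          mul_le_mul_of_nonneg_right e1 (Real.rpow_nonneg hLpos.le _)
      _ = (Real.log X) ^ ε1 := by
          rw [← Real.rpow_add hLpos]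
          congr 1
          ring
  -- the factor W / φ(W)
  have hWpos : 0 < Wp w := primorial_pos w
  have hWpos' : (0 : ℝ) < (Wp w : ℝ) := by exact_mod_cast hWpos
  have hφpos : (0 : ℝ) < ((Wp w).totient : ℝ) := by
    exact_mod_cast Nat.totient_pos.mpr hWpos
  have hφle : ((Wp w).totient : ℝ) ≤ (Wp w : ℝ) := by exact_mod_cast Nat.totient_le (Wp w)
  have hratio : (1 : ℝ) ≤ (Wp w : ℝ) / ((Wp w).totient : ℝ) := (one_le_div hφpos).mpr hφle
  have hlogk : Real.log ((X : ℝ) ^ κ) = κ * Real.log X := Real.log_rpow hXpos κ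
  have hV : 0 ≤ denV l w κ X := by
    unfold denV
    rw [hlogk]
    positivity
  -- the small b
  have hsm : (X : ℝ) ^ κ ≤ δ / 8 * (((Wp w : ℝ) / ((Wp w).totient : ℝ)) * X / Real.log X) := by
    have h1 : (X : ℝ) ^ κ * (8 * Real.log X) ≤ δ * X := by
      have h2 : (X : ℝ) ^ κ * (X : ℝ) ^ (1 - κ) = X := by
        rw [← Real.rpow_add hXpos]
        have : κ + (1 - κ) = 1 := by ring
        rw [this, Real.rpow_one]
      have h3 := mul_le_mul_of_nonneg_left e2 (Real.rpow_nonneg hXpos.le κ)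
      have h4 : (X : ℝ) ^ κ * (δ / 8 * (X : ℝ) ^ (1 - κ)) = δ / 8 * X := by
        rw [mul_left_comm, h2]
      rw [h4] at h3
      linarith
    have h4 : (X : ℝ) ^ κ ≤ δ / 8 * (X / Real.log X) := by
      rw [← mul_div_assoc, le_div_iff₀ hLpos]
      linarith
    refine h4.trans ?_
    have h5 : (X : ℝ) / Real.log X ≤
        ((Wp w : ℝ) / ((Wp w).totient : ℝ)) * X / Real.log X := by
      rw [mul_div_assoc]
      exact le_mul_of_one_le_left (by positivity) hratio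
    exact mul_le_mul_of_nonneg_left h5 (by positivity)
  set c0 : ℝ := δ * (κ * (2 * (l : ℝ) - 1)) / (8 * (l : ℝ) ^ 2) with hc0
  have hc0pos : 0 < c0 := by positivity
  have hall : ∀ x : Fin (T + 1) → ZMod M,
      (1 / 4 : ℝ) * (((Wp w : ℝ) / ((Wp w).totient : ℝ)) * X / Real.log X) ≤
        (((Icc 1 X).filter (fun b => (Wp w * b * mlt q x + 1).Prime)).card : ℝ) := fun x =>
    hXa X hXa' (mlt q x) ((hM T q hq M).2.1 w hqw x) (hm x)
  refine ⟨fun x => ?_, fun Q hQ => ?_⟩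
  · refine le_trans ?_ (hall x)
    have h5 : (X : ℝ) / Real.log X ≤
        ((Wp w : ℝ) / ((Wp w).totient : ℝ)) * X / Real.log X := by
      rw [mul_div_assoc]
      exact le_mul_of_one_le_left (by positivity) hratio
    exact mul_le_mul_of_nonneg_left h5 (by norm_num)
  -- one point of the box
  have hone : ∀ x : Fin (T + 1) → ZMod M, Bx T M N x →
      c0 * X ≤ ∑ b ∈ Icc 1 X, (if Q (Wp w * b * mlt q x) then fb l w κ q N X b x else 0) := by
    intro x hx
    have h1 := mul_le_mul_of_nonneg_left (hall x) hδ.le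
    have h1' := hQ x hx
    set P := (Icc 1 X).filter (fun b => (Wp w * b * mlt q x + 1).Prime ∧ Q (Wp w * b * mlt q x))
      with hP
    set S := (Icc 1 X).filter (fun b : ℕ => ¬ (X : ℝ) ^ κ < (b : ℝ)) with hSdef
    have h2 : (S.card : ℝ) ≤ (X : ℝ) ^ κ := den_small X
    have h3 : (P.card : ℝ) ≤ ((P \ S).card : ℝ) + (S.card : ℝ) := by
      have h4 := Finset.card_le_card_sdiff_add_card (s := P) (t := S)
      exact_mod_cast h4
    have h4 : δ / 8 * (((Wp w : ℝ) / ((Wp w).totient : ℝ)) * X / Real.log X) ≤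
        ((P \ S).card : ℝ) := by linarith
    calc c0 * X = denV l w κ X *
          (δ / 8 * (((Wp w : ℝ) / ((Wp w).totient : ℝ)) * X / Real.log X)) := by
          unfold denV
          rw [hlogk, hc0]
          field_simp
      _ ≤ denV l w κ X * ((P \ S).card : ℝ) := mul_le_mul_of_nonneg_left h4 hV
      _ = ∑ b ∈ P \ S, denV l w κ X := by
          rw [Finset.sum_const, nsmul_eq_mul, mul_comm]
      _ = ∑ b ∈ P \ S, (if Q (Wp w * b * mlt q x) then fb l w κ q N X b x else 0) := by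
          refine Finset.sum_congr rfl fun b hb => ?_
          obtain ⟨h5, h6⟩ := Finset.mem_sdiff.mp hb
          obtain ⟨h7, h8, h8'⟩ := Finset.mem_filter.mp h5
          have h9 : (X : ℝ) ^ κ < (b : ℝ) := by
            by_contra h9
            exact h6 (Finset.mem_filter.mpr ⟨h7, h9⟩)
          rw [if_pos h8']
          exact (den_fb_pos ⟨hx, h9, h8⟩).symm
      _ ≤ ∑ b ∈ Icc 1 X, (if Q (Wp w * b * mlt q x) then fb l w κ q N X b x else 0) := by
          refine Finset.sum_le_sum_of_subset_of_nonneg ?_ (fun b _ _ => dna_nonneg hV)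
          exact Finset.sdiff_subset.trans (Finset.filter_subset _ _)
  have hbox := den_box (T := T) (M := M) (N := N) (by omega)
  have hbox' : (N : ℝ) ^ (T + 1) ≤
      ((univ.filter (fun x : Fin (T + 1) → ZMod M => Bx T M N x)).card : ℝ) := by
    exact_mod_cast hbox
  have hcardG : (Fintype.card (Fin (T + 1) → ZMod M) : ℝ) = (M : ℝ) ^ (T + 1) := by
    rw [Fintype.card_fun, Fintype.card_fin, ZMod.card]
    push_cast
    rfl
  have hsum : (N : ℝ) ^ (T + 1) * (c0 * X) ≤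
      ∑ x : Fin (T + 1) → ZMod M, ∑ b ∈ Icc 1 X, (if Q (Wp w * b * mlt q x) then fb l w κ q N X b x else 0) := by
    calc (N : ℝ) ^ (T + 1) * (c0 * X) ≤
          ((univ.filter (fun x : Fin (T + 1) → ZMod M => Bx T M N x)).card : ℝ) * (c0 * X) :=
          mul_le_mul_of_nonneg_right hbox' (by positivity)
      _ = ∑ _x ∈ univ.filter (fun x : Fin (T + 1) → ZMod M => Bx T M N x), c0 * X := by
          rw [Finset.sum_const, nsmul_eq_mul]
      _ ≤ ∑ x ∈ univ.filter (fun x : Fin (T + 1) → ZMod M => Bx T M N x),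
          ∑ b ∈ Icc 1 X, (if Q (Wp w * b * mlt q x) then fb l w κ q N X b x else 0) :=
          Finset.sum_le_sum fun x hx => hone x (Finset.mem_filter.mp hx).2
      _ ≤ ∑ x : Fin (T + 1) → ZMod M, ∑ b ∈ Icc 1 X, (if Q (Wp w * b * mlt q x) then fb l w κ q N X b x else 0) :=
          Finset.sum_le_sum_of_subset_of_nonneg (Finset.filter_subset _ _)
            (fun x _ _ => Finset.sum_nonneg fun b _ => dna_nonneg hV)
  have hfin : eb X (fun b => av (fun x : Fin (T + 1) → ZMod M =>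
      if Q (Wp w * b * mlt q x) then fb l w κ q N X b x else 0)) =
      (∑ x : Fin (T + 1) → ZMod M, ∑ b ∈ Icc 1 X, (if Q (Wp w * b * mlt q x) then fb l w κ q N X b x else 0)) /
        ((M : ℝ) ^ (T + 1)) / X := by
    unfold eb av
    rw [← Finset.sum_div, Finset.sum_comm, hcardG]
  rw [hfin, le_div_iff₀ hXpos, le_div_iff₀ (by positivity)]
  refine le_trans ?_ hsum
  have hpow : (M : ℝ) ^ (T + 1) ≤ 4 ^ (T + 1) * (N : ℝ) ^ (T + 1) := by
    rw [← mul_pow]
    exact pow_le_pow_left₀ hMpos.le hM4' _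
  have h4pos : (0 : ℝ) < 4 ^ (T + 1) := by positivity
  calc 2 * (δ * (κ * (2 * (l : ℝ) - 1)) / (16 * (l : ℝ) ^ 2) / 4 ^ (T + 1)) * X * (M : ℝ) ^ (T + 1)
      = c0 * X / 4 ^ (T + 1) * (M : ℝ) ^ (T + 1) := by
        rw [hc0]
        field_simp
        ring
    _ ≤ c0 * X / 4 ^ (T + 1) * (4 ^ (T + 1) * (N : ℝ) ^ (T + 1)) :=
        mul_le_mul_of_nonneg_left hpow (by positivity)
    _ = (N : ℝ) ^ (T + 1) * (c0 * X) := by
        field_simp

end Pool.Agent.Lib.MP_9f2731_nt.GP.Alm
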