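import Pool.Agent.Lib.MP_9f2731_nt.GP.Alm.Spec
import Pool.Agent.Lib.MP_9f2731_nt.GP.HandIn

/-!
The statement of the hand-in AlmostAllPrimes from `BsaStmt`.
-/

namespace Pool.Agent.Lib.MP_9f2731_nt.GP.Alm

open Finset
open Pool.Agent.Lib.MP_9f2731_nt.GP

private theorem alm_large (W : ℕ) (ε : ℝ) (hε : 0 < ε) : ∃ X₁ : ℝ, ∀ X : ℕ, X₁ ≤ X →
    (W : ℝ) * Real.exp (Real.log X ^ (ε / 2)) ≤ Real.exp (Real.log X ^ ε) ∧
      Real.exp (Real.log X ^ (ε / 2)) ≤ Real.exp (Real.log X ^ ε) := by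
  have hlog : Filter.Tendsto (fun X : ℕ => Real.log (X : ℝ)) Filter.atTop Filter.atTop :=
    Real.tendsto_log_atTop.comp (tendsto_natCast_atTop_atTop (R := ℝ))
  have t1 := ((tendsto_rpow_atTop (show 0 < ε / 2 by positivity)).comp hlog).eventually
    (Filter.eventually_ge_atTop (max 2 (Real.log W)))
  have t2 := hlog.eventually (Filter.eventually_ge_atTop (1 : ℝ))
  have t := t1.and t2
  rw [Filter.eventually_atTop] at t
  obtain ⟨N0, hN0⟩ := t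
  refine ⟨N0, fun X hX => ?_⟩
  obtain ⟨c1, c2⟩ := hN0 X (by exact_mod_cast hX)
  simp only [Function.comp_apply] at c1
  have hL : 0 < Real.log (X : ℝ) := by linarith
  have d1 := (le_max_left _ _).trans c1
  have d2 := (le_max_right _ _).trans c1
  set u := Real.log (X : ℝ) ^ (ε / 2) with hu
  have e1 : Real.log (X : ℝ) ^ ε = u * u := by
    rw [hu, ← Real.rpow_add hL]
    congr 1
    ring
  rw [e1]
  have h1 : u + u ≤ u * u := by nlinarith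
  refine ⟨?_, Real.exp_le_exp.mpr (by linarith)⟩
  have h2 : (W : ℝ) ≤ Real.exp u := by
    rcases Nat.eq_zero_or_pos W with h0 | h0
    · rw [h0, Nat.cast_zero]
      exact (Real.exp_pos _).le
    · rw [← Real.log_le_iff_le_exp (Nat.cast_pos.mpr h0)]
      exact d2
  calc (W : ℝ) * Real.exp u ≤ Real.exp u * Real.exp u :=
        mul_le_mul_of_nonneg_right h2 (Real.exp_pos _).le
    _ = Real.exp (u + u) := (Real.exp_add _ _).symm
    _ ≤ Real.exp (u * u) := Real.exp_le_exp.mpr h1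

theorem alm_handIn (h : BsaStmt) (k : ℕ) (ε : ℝ) (hε : 0 < ε) :
    ∃ T : ℕ, ∀ S : Finset ℕ, (∀ q ∈ S, q.Prime) → T ≤ S.card → ∀ δ : ℝ, 0 < δ →
      ∃ X₀ : ℝ, ∀ X : ℕ, X₀ ≤ X → ∃ Q : ℕ, 1 ≤ Q ∧ (Q : ℝ) ≤ Real.exp (Real.log X ^ ε) ∧
        X / (4 * Real.log X) ≤ (({b : ℕ | 1 ≤ b ∧ b ≤ X ∧ (Q * b + 1).Prime}.ncard : ℕ) : ℝ) ∧
        (({b : ℕ | 1 ≤ b ∧ b ≤ X ∧ (Q * b + 1).Prime ∧ ¬ ∃ r : ℕ, 2 ≤ r ∧
          (r : ℝ) ≤ Real.exp (Real.log X ^ ε) ∧ (∀ q : ℕ, q.Prime → q ∣ r → q ∈ S) ∧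
          ∃ p : ℕ → ℕ, p 1 = Q * b + 1 ∧ (∀ i, 1 ≤ i → i ≤ k → (p i).Prime) ∧
            ∀ i, 1 ≤ i → (p (i + 1) : ℤ) = r * p i - (r - 1)}.ncard : ℕ) : ℝ) ≤
          δ * (({b : ℕ | 1 ≤ b ∧ b ≤ X ∧ (Q * b + 1).Prime}.ncard : ℕ) : ℝ) := by
  classical
  obtain ⟨T, hT⟩ := h (max k 3) (ε / 2) (le_max_right _ _) (by positivity)
  refine ⟨T, fun S hS hcard δ hδ => ?_⟩
  obtain ⟨S', hS', hc'⟩ := Finset.exists_subset_card_eq hcard
  let e : Fin T ≃ S' := (Fin.castOrderIso hc'.symm).toEquiv.trans S'.equivFin.symm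
  let q : Fin T → ℕ := fun j => (e j : ℕ)
  have hq : ∀ j, (q j).Prime := fun j => hS _ (hS' (e j).2)
  have hinj : Function.Injective q := fun i j hij => e.injective (Subtype.ext hij)
  obtain ⟨W, hW, X₀, hX⟩ := hT q hq hinj δ hδ
  obtain ⟨X₁, hX₁⟩ := alm_large W ε hε
  refine ⟨max X₀ X₁, fun X hX0 => ?_⟩
  obtain ⟨s, hs, hsX, hcnt, hbad⟩ := hX X ((le_max_left _ _).trans hX0)
  obtain ⟨g1, g2⟩ := hX₁ X ((le_max_right _ _).trans hX0)
  have hset : {b : ℕ | 1 ≤ b ∧ b ≤ X ∧ (W * s * b + 1).Prime} =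
      ((Icc 1 X).filter (fun b => (W * b * s + 1).Prime) : Finset ℕ) := by
    ext b
    simp only [Set.mem_ofPred_eq, coe_filter, mem_Icc, and_assoc]
    rw [show W * s * b = W * b * s by ring]
  refine ⟨W * s, ?_, ?_, ?_, ?_⟩
  · exact Nat.one_le_iff_ne_zero.mpr (Nat.mul_ne_zero (by omega) (by have := hs.1; omega))
  · push_cast
    exact (mul_le_mul_of_nonneg_left hsX (Nat.cast_nonneg _)).trans g1
  · rw [hset, Set.ncard_coe_finset]
    refine le_trans (le_of_eq ?_) hcnt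
    rw [mul_comm (4 : ℝ), ← div_div]
    ring
  · rw [hset, Set.ncard_coe_finset]
    refine le_trans ?_ hbad
    rw [← Set.ncard_coe_finset, Nat.cast_le]
    refine Set.ncard_le_ncard ?_ (Finset.finite_toSet _)
    rintro b ⟨hb1, hb2, hb3, hb4⟩
    rw [coe_filter, Set.mem_ofPred_eq, mem_Icc]
    rw [show W * s * b = W * b * s by ring] at hb3 hb4
    refine ⟨⟨hb1, hb2⟩, hb3, fun hSta => hb4 ?_⟩
    obtain ⟨r, hr, hr2, hrX, hp⟩ := hSta
    refine ⟨r, hr2, hrX.trans g2, fun p hp hd => ?_, fun i => W * b * s * r ^ (i - 1) + 1,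
      by simp, fun i h1 h2 => hp (i - 1) (by have := le_max_left k 3; omega), fun i h1 => ?_⟩
    · obtain ⟨j, rfl⟩ := hr.2 p hp hd
      exact hS' (e j).2
    · obtain ⟨j, rfl⟩ : ∃ j, i = j + 1 := ⟨i - 1, by omega⟩
      exact gp_step (W * b * s) r j

end Pool.Agent.Lib.MP_9f2731_nt.GP.Alm
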