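import Pool.Agent.Lib.MP_9f2731_nt.GP.Asm.Spec

/-!
MP_9f2731_nt, GP/Alm (helper78): almost all primes in suitable progressions start a chain.
The main step of GP/Asm for an arbitrary set of primes of positive relative density, applied to the
set of the primes that do not start a chain of length k.
-/

namespace Pool.Agent.Lib.MP_9f2731_nt.GP.Alm

open Finset
open Pool.Agent.Lib.MP_9f2731_nt.GP.Rel
open Pool.Agent.Lib.MP_9f2731_nt.GP.Asm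

/-- the number n + 1 starts a chain of length k with a ratio composed of the q j -/
def Sta (k : ℕ) (ε : ℝ) {T : ℕ} (q : Fin T → ℕ) (X n : ℕ) : Prop :=
  ∃ r : ℕ, Gen q r ∧ 2 ≤ r ∧ (r : ℝ) ≤ Real.exp ((Real.log X) ^ ε) ∧
    ∀ i : ℕ, i < k → (n * r ^ i + 1).Prime

open Classical in
/-- Module Dna (density of a set of primes on the lattice; compare Asm/Den). Uses: ApStmt, Mlt. -/
def DnaStmt : Prop :=
  ∃ ε1 : ℝ, 0 < ε1 ∧ ∀ (l : ℕ) (κ : ℝ), 1 ≤ l → 0 < κ → κ < 1 → ∀ ε0 : ℝ, 0 < ε0 → ε0 ≤ ε1 →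
    ∀ (T : ℕ) (q : Fin T → ℕ), Pq q → ∀ δ : ℝ, 0 < δ → ∃ δ' : ℝ, 0 < δ' ∧
    ∀ w : ℕ, 2 ≤ w → (∀ j, q j ≤ w) →
    ∃ X0 : ℝ, ∀ X : ℕ, X0 ≤ X → ∀ (N M : ℕ) [NeZero M], Scl ε0 X N M →
      (∀ x : Fin (T + 1) → ZMod M, (1 / 4 : ℝ) * (X / Real.log X) ≤
        (((Icc 1 X).filter (fun b => (Wp w * b * mlt q x + 1).Prime)).card : ℝ)) ∧
      ∀ P : ℕ → Prop,
      (∀ x : Fin (T + 1) → ZMod M, Bx T M N x →
        δ * (((Icc 1 X).filter (fun b => (Wp w * b * mlt q x + 1).Prime)).card : ℝ) ≤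
          (((Icc 1 X).filter (fun b => (Wp w * b * mlt q x + 1).Prime ∧
            P (Wp w * b * mlt q x))).card : ℝ)) →
      2 * δ' ≤ eb X (fun b => av (fun x : Fin (T + 1) → ZMod M =>
        if P (Wp w * b * mlt q x) then fb l w κ q N X b x else 0))

open Classical in
/-- Module Bsa (main step for almost all primes; compare Asm/Bas). Uses: RelStmt, Gen, Lf2, Sec, Deg,
Dna, Maj, Sel, Pts, Mlt. -/
def BsaStmt : Prop :=
  ∀ (k : ℕ) (ε : ℝ), 3 ≤ k → 0 < ε → ∃ T : ℕ, ∀ q : Fin T → ℕ, (∀ j, (q j).Prime) →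
    Function.Injective q → ∀ δ : ℝ, 0 < δ → ∃ W : ℕ, 1 ≤ W ∧ ∃ X0 : ℝ, ∀ X : ℕ, X0 ≤ X →
    ∃ s : ℕ, Gen q s ∧ (s : ℝ) ≤ Real.exp ((Real.log X) ^ ε) ∧
      (1 / 4 : ℝ) * (X / Real.log X) ≤
        (((Icc 1 X).filter (fun b => (W * b * s + 1).Prime)).card : ℝ) ∧
      (((Icc 1 X).filter (fun b => (W * b * s + 1).Prime ∧ ¬ Sta k ε q X (W * b * s))).card : ℝ) ≤
        δ * (((Icc 1 X).filter (fun b => (W * b * s + 1).Prime)).card : ℝ)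

end Pool.Agent.Lib.MP_9f2731_nt.GP.Alm
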